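import Mathlib
import Pool.Agent.H357.NearLin2

set_option autoImplicit false

namespace Pool.Agent.Results.MP_89e4fc_al.NearLinearGrowth

open Pool.Agent.H72R2.Gar Pool.Agent.H357.NearLin

/-- chains below `d ^ k` have at most `C k ^ (1 + ε)` steps, `C` depending on `D` and `ε` only -/
theorem bound (D : ℕ) (ε : ℝ) (hε : 0 < ε) : ∃ C : ℝ, ∀ (M : Type) [Monoid M] (d : M),
    IsGar d → Norm d D → ∀ (k n : ℕ), 1 ≤ k → ∀ p : ℕ → M, Chain p n → p n ∣ p 0 * d ^ k →
      (n : ℝ) ≤ C * (k : ℝ) ^ (1 + ε) := by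
  set lam : ℝ := 2 ^ (1 + ε) with hlam
  have hl : 2 < lam := by
    rw [hlam]
    calc (2 : ℝ) = 2 ^ (1 : ℝ) := by rw [Real.rpow_one]
      _ < 2 ^ (1 + ε) := Real.rpow_lt_rpow_of_exponent_lt (by norm_num) (by linarith)
  obtain ⟨C, hC0, hC⟩ := noLong_pow D lam hl
  refine ⟨((D : ℝ) + 1) ^ D * (C + 1) * lam, ?_⟩
  intro M _ d h hD k n hk p hp hn
  -- the dyadic exponent of `k`
  set J := Nat.log 2 k + 1 with hJ
  have hkJ : k ≤ 2 ^ J := (Nat.lt_pow_succ_log_self (by norm_num) k).le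
  have hJk : 2 ^ (Nat.log 2 k) ≤ k := Nat.pow_log_le_self 2 (by omega)
  set m : ℕ := ⌊C * lam ^ J⌋₊ + 1 with hm
  have hm1 : C * lam ^ J < (m : ℝ) := by
    rw [hm]
    push_cast
    exact Nat.lt_floor_add_one _
  have h1 := hC M d h hD J m hm1
  have h2 := bd_of_noLong (h.bd_pow hD D) h1
  have h3 := h2 p n hp (hn.trans (mul_pow_dvd (hkJ.trans (Nat.le_mul_of_pos_right _ (by omega)))))
  have h4 : (n : ℝ) ≤ ((D : ℝ) + 1) ^ D * m := by
    have : (n : ℝ) < (((D + 1) ^ D * m : ℕ) : ℝ) := by exact_mod_cast h3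
    push_cast at this
    exact this.le
  have hlJ : 1 ≤ lam ^ J := one_le_pow₀ (by linarith)
  have h5 : (m : ℝ) ≤ (C + 1) * lam ^ J := by
    rw [hm]
    push_cast
    have := Nat.floor_le (show 0 ≤ C * lam ^ J by positivity)
    linarith
  have h6 : lam ^ J ≤ lam * (k : ℝ) ^ (1 + ε) := by
    rw [hJ, pow_succ, mul_comm]
    refine mul_le_mul_of_nonneg_left ?_ (by linarith)
    rw [hlam, ← Real.rpow_natCast, ← Real.rpow_mul (by norm_num), mul_comm, Real.rpow_mul (by norm_num),
      Real.rpow_natCast]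
    refine Real.rpow_le_rpow (by positivity) ?_ (by linarith)
    exact_mod_cast hJk
  calc (n : ℝ) ≤ ((D : ℝ) + 1) ^ D * m := h4
    _ ≤ ((D : ℝ) + 1) ^ D * ((C + 1) * (lam * (k : ℝ) ^ (1 + ε))) := by
        refine mul_le_mul_of_nonneg_left (h5.trans ?_) (by positivity)
        exact mul_le_mul_of_nonneg_left h6 (by linarith)
    _ = _ := by ring

/-- **Near-linear growth of the atom length of the powers of a Garside element.**
For every `D` and every `ε > 0` there is a constant `C` such that for every Garside monoid `M`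
with Garside element `d` (hypotheses as in the problem) such that every factorisation of `d` into
non-identity elements has at most `D` factors, every factorisation of `d ^ k`, `k ≥ 1`, into
non-identity elements has at most `C k ^ (1 + ε)` factors. -/
theorem result :
    ∀ (D : ℕ) (ε : ℝ), 0 < ε → ∃ C : ℝ, ∀ (M : Type) [Monoid M] (d : M),
      (∀ a b c : M, a * b = a * c → b = c) →
      (∀ a b c : M, b * a = c * a → b = c) →
      (∃ len : M → ℕ, (∀ a b : M, len a + len b ≤ len (a * b)) ∧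
          ∀ a : M, len a = 0 → a = 1) →
      (∀ a b : M, ∃ m : M, (∃ c, m = a * c) ∧ (∃ c, m = b * c) ∧
          ∀ x : M, (∃ c, x = a * c) → (∃ c, x = b * c) → ∃ c, x = m * c) →
      (∀ a b : M, ∃ g : M, (∃ c, a = g * c) ∧ (∃ c, b = g * c) ∧
          ∀ x : M, (∃ c, a = x * c) → (∃ c, b = x * c) → ∃ c, g = x * c) →
      (∀ a b : M, ∃ m : M, (∃ c, m = c * a) ∧ (∃ c, m = c * b) ∧
          ∀ x : M, (∃ c, x = c * a) → (∃ c, x = c * b) → ∃ c, x = c * m) →
      (∀ a b : M, ∃ g : M, (∃ c, a = c * g) ∧ (∃ c, b = c * g) ∧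
          ∀ x : M, (∃ c, a = c * x) → (∃ c, b = c * x) → ∃ c, g = c * x) →
      (∀ x : M, (∃ c, d = x * c) ↔ (∃ c, d = c * x)) →
      Set.Finite {x : M | ∃ c, d = x * c} →
      Submonoid.closure {x : M | ∃ c, d = x * c} = ⊤ →
      (∀ n : ℕ, ∀ f : Fin n → M, (∀ i, f i ≠ 1) → (List.ofFn f).prod = d → n ≤ D) →
      ∀ k n : ℕ, 1 ≤ k → ∀ f : Fin n → M,
        (∀ i, f i ≠ 1) → (List.ofFn f).prod = d ^ k → (n : ℝ) ≤ C * (k : ℝ) ^ (1 + ε) := by
  intro D ε hε
  obtain ⟨C, hC⟩ := bound D ε hε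
  refine ⟨C, ?_⟩
  intro M _ d hlc hrc hat hlcm _ _ _ hbal _ hgen hDf k n hk f hf hprod
  have h : IsGar d := ⟨hlc, hrc, hat, hlcm, hbal, hgen⟩
  have hD : Norm d D := by
    intro l hl hlp
    refine hDf l.length l.get (fun i => hl _ (List.get_mem _ _)) ?_
    rw [List.ofFn_get]
    exact hlp
  -- the chain of prefix products
  set l : List M := List.ofFn f with hl
  have hlen : l.length = n := by simp [hl]
  refine hC M d h hD k n hk (fun i => (l.take i).prod) ?_ ?_
  · intro i hi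
    have hi' : i < l.length := by omega
    have hstep : (l.take (i + 1)).prod = (l.take i).prod * l[i] := by
      rw [List.take_succ_eq_append_getElem hi', List.prod_append, List.prod_singleton]
    dsimp only
    rw [hstep]
    refine ⟨Dvd.intro _ rfl, fun heq => ?_⟩
    have h1 : (l.take i).prod * 1 = (l.take i).prod * l[i] := by rw [mul_one]; exact heq
    have h2 := hlc _ _ _ h1
    have h3 : l[i] = f ⟨i, by omega⟩ := by simp [hl]
    exact hf ⟨i, by omega⟩ (by rw [← h3, ← h2])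
  · have h1 : l.take n = l := by rw [← hlen, List.take_length]
    simp only [List.take_zero, List.prod_nil, one_mul]
    rw [h1, hprod]

end Pool.Agent.Results.MP_89e4fc_al.NearLinearGrowth
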